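import Mathlib
import Pool.Agent.H.MP_159dfd_an.QG

set_option autoImplicit false

namespace Pool.Agent.Results.MP_159dfd_an.No

open Set Pool.Agent.H.MP_159dfd_an

theorem result : ∃ (n m : ℕ) (s t : Fin m → Fin n) (L : Fin m → ℝ) (μ : ℝ),
    (∀ e, 0 < L e) ∧ Conn s t univ ∧ (∃ e, ¬ Conn s t {e}ᶜ) ∧
    IsLeast {ν | 0 < ν ∧ ∃ f, Eig s t L 0 ν f} μ ∧ ∃ e, (Hot s t L 0 μ e).Infinite :=
  ⟨3, 4, s, t, L, 1, Lpos, conn, ⟨3, bridge⟩, sec, 0, inf⟩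

end Pool.Agent.Results.MP_159dfd_an.No
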